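import Mathlib
import Pool.Agent.R151.Deletion

/-!
# Equal disks in the unit disk with no line meeting many: a lower bound for `k ≥ 3`
-/

namespace Pool.Agent.Results.MP_1780a9_co.LowerBound

open Metric

/-- `n` closed disks of radius `r` with centres `p i`, all contained in the closed unit disk, such
that every straight line `{a + t v}` (`v ≠ 0`) meets at most `k` of them. -/
def Admissible (k n : ℕ) (r : ℝ) (p : Fin n → EuclideanSpace ℝ (Fin 2)) : Prop :=
  (∀ i, closedBall (p i) r ⊆ closedBall 0 1) ∧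
  ∀ a v : EuclideanSpace ℝ (Fin 2), v ≠ 0 →
    {i : Fin n | ∃ t : ℝ, a + t • v ∈ closedBall (p i) r}.ncard ≤ k

/-- `r_k(n)`. -/
noncomputable def rk (k n : ℕ) : ℝ := sSup {r : ℝ | 0 < r ∧ ∃ p, Admissible k n r p}

lemma bddAbove {k n : ℕ} (hn : 1 ≤ n) : BddAbove {r : ℝ | 0 < r ∧ ∃ p, Admissible k n r p} := by
  refine ⟨2, ?_⟩
  rintro r ⟨hr, p, hp, _⟩
  have h0 := hp ⟨0, hn⟩
  set c := p ⟨0, hn⟩
  by_contra hcon
  push Not at hcon
  have h1 : c + EuclideanSpace.single (0 : Fin 2) r ∈ closedBall c r := by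
    rw [mem_closedBall, dist_self_add_left, PiLp.norm_single, Real.norm_eq_abs, abs_of_pos hr]
  have h2 : c - EuclideanSpace.single (0 : Fin 2) r ∈ closedBall c r := by
    rw [mem_closedBall, dist_eq_norm, sub_sub_cancel_left, norm_neg, PiLp.norm_single,
      Real.norm_eq_abs, abs_of_pos hr]
  have h3 := mem_closedBall_zero_iff.1 (h0 h1)
  have h4 := mem_closedBall_zero_iff.1 (h0 h2)
  have h5 : ‖(c + EuclideanSpace.single (0 : Fin 2) r) - (c - EuclideanSpace.single (0 : Fin 2) r)‖ ≤ 2 :=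
    le_trans (norm_sub_le _ _) (by linarith)
  have h6 : (c + EuclideanSpace.single (0 : Fin 2) r) - (c - EuclideanSpace.single (0 : Fin 2) r) =
      (2 : ℝ) • EuclideanSpace.single (0 : Fin 2) r := by
    rw [two_smul]; abel
  rw [h6, norm_smul, PiLp.norm_single, Real.norm_eq_abs, Real.norm_eq_abs, abs_of_pos hr,
    abs_of_pos (by norm_num)] at h5
  linarith

/-- integer determinant -/
def idet (x y c : ℤ × ℤ) : ℤ := (c.1 - x.1) * (y.2 - x.2) - (c.2 - x.2) * (y.1 - x.1)

/-- the grid -/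
abbrev Grid (M : ℕ) : Type := Fin M × Fin M

/-- integer coordinates -/
def ic {M : ℕ} (q : Grid M) : ℤ × ℤ := ((q.1 : ℕ), (q.2 : ℕ))

lemma ic_inj {M : ℕ} : Function.Injective (ic (M := M)) := by
  rintro ⟨a, b⟩ ⟨c, d⟩ h
  simp only [ic, Prod.mk.injEq, Nat.cast_inj] at h
  exact Prod.ext (Fin.ext h.1) (Fin.ext h.2)

open Classical in
/-- the strip of the grid points near the line through `x` and `y` -/
noncomputable def strip {M : ℕ} (x y : Grid M) : Finset (Grid M) :=
  if x = y then {x} else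
    (Finset.univ : Finset (Grid M)).filter fun c => |idet (ic x) (ic y) (ic c)| ≤
      6 * max |(ic y).1 - (ic x).1| |(ic y).2 - (ic x).2|

lemma card_interval {M : ℕ} (a b : ℤ) (P : Fin M → Prop) [DecidablePred P]
    (hP : ∀ j, P j → a ≤ (j : ℕ) ∧ ((j : ℕ) : ℤ) ≤ b) (hab : b ≤ a + 12) :
    (Finset.univ.filter P).card ≤ 13 := by
  have h1 : ((Finset.univ.filter P).image fun j : Fin M => ((j : ℕ) : ℤ)) ⊆ Finset.Icc a b := by
    intro z hz
    obtain ⟨j, hj, rfl⟩ := Finset.mem_image.1 hz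
    rw [Finset.mem_Icc]
    exact hP j (Finset.mem_filter.1 hj).2
  have h2 := Finset.card_le_card h1
  rw [Finset.card_image_of_injective _ (fun x y h => Fin.ext (by exact_mod_cast h)), Int.card_Icc] at h2
  omega

/-- an interval for `j` from a bound for `|A - j V|` -/
lemma exists_interval (A V : ℤ) (hV : V ≠ 0) : ∃ a b : ℤ, b ≤ a + 12 ∧
    ∀ j : ℤ, |A - j * V| ≤ 6 * |V| → a ≤ j ∧ j ≤ b := by
  rcases lt_or_gt_of_ne hV with h | h
  · have hW : 0 < -V := by omega
    refine ⟨-(A / (-V)) - 6, -(A / (-V)) + 6, by omega, ?_⟩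
    intro j hj
    rw [abs_of_neg h, abs_le] at hj
    have h1 := Int.emod_add_mul_ediv A (-V)
    have h2 := Int.emod_nonneg A hW.ne'
    have h3 := Int.emod_lt_of_pos A hW
    constructor
    · by_contra hc
      push Not at hc
      nlinarith
    · by_contra hc
      push Not at hc
      nlinarith
  · refine ⟨A / V - 6, A / V + 6, by omega, ?_⟩
    intro j hj
    rw [abs_of_pos h, abs_le] at hj
    have h1 := Int.emod_add_mul_ediv A V
    have h2 := Int.emod_nonneg A h.ne'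
    have h3 := Int.emod_lt_of_pos A h
    constructor
    · by_contra hc
      push Not at hc
      nlinarith
    · by_contra hc
      push Not at hc
      nlinarith

open Classical in
lemma card_strip {M : ℕ} (x y : Grid M) : (strip x y).card ≤ 13 * M := by
  have hM : 1 ≤ M := by have := x.1.2; omega
  unfold strip
  split_ifs with hxy
  · simp only [Finset.card_singleton]; omega
  · set V1 := (ic y).1 - (ic x).1 with hV1
    set V2 := (ic y).2 - (ic x).2 with hV2
    have hne : ¬ (V1 = 0 ∧ V2 = 0) := by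
      rintro ⟨h1, h2⟩
      exact hxy (ic_inj (Prod.ext (by omega) (by omega)))
    rcases le_total |V2| |V1| with h | h
    · have hV : V1 ≠ 0 := by
        rintro h0
        rw [h0, abs_zero] at h
        exact hne ⟨h0, abs_nonpos_iff.1 h⟩
      rw [max_eq_left h]
      have hsub : ((Finset.univ : Finset (Grid M)).filter fun c =>
          |idet (ic x) (ic y) (ic c)| ≤ 6 * |V1|) ⊆
          (Finset.univ : Finset (Fin M)).biUnion fun i =>
            ((Finset.univ : Finset (Fin M)).filter fun j =>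
              |idet (ic x) (ic y) (ic (i, j))| ≤ 6 * |V1|).image fun j => (i, j) := by
        rintro ⟨i, j⟩ hc
        rw [Finset.mem_filter] at hc
        rw [Finset.mem_biUnion]
        exact ⟨i, Finset.mem_univ _, Finset.mem_image.2 ⟨j, Finset.mem_filter.2 ⟨Finset.mem_univ _, hc.2⟩, rfl⟩⟩
      refine le_trans (Finset.card_le_card hsub) (le_trans Finset.card_biUnion_le ?_)
      calc _ ≤ ∑ _i : Fin M, 13 := by
            apply Finset.sum_le_sum
            intro i _
            refine le_trans Finset.card_image_le ?_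
            obtain ⟨a, b, hab, hj⟩ := exists_interval
              ((((i : ℕ) : ℤ) - (ic x).1) * V2 + (ic x).2 * V1) V1 hV
            apply card_interval a b _ _ hab
            intro j hjj
            apply hj
            have e : (((i : ℕ) : ℤ) - (ic x).1) * V2 + (ic x).2 * V1 - ((j : ℕ) : ℤ) * V1 =
                idet (ic x) (ic y) (ic (i, j)) := by
              simp only [idet, ic, hV1, hV2]; ring
            rw [e]; exact hjj
        _ = 13 * M := by simp [mul_comm]
    · have hV : V2 ≠ 0 := by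
        rintro h0
        rw [h0, abs_zero] at h
        exact hne ⟨abs_nonpos_iff.1 h, h0⟩
      rw [max_eq_right h]
      have hsub : ((Finset.univ : Finset (Grid M)).filter fun c =>
          |idet (ic x) (ic y) (ic c)| ≤ 6 * |V2|) ⊆
          (Finset.univ : Finset (Fin M)).biUnion fun j =>
            ((Finset.univ : Finset (Fin M)).filter fun i =>
              |idet (ic x) (ic y) (ic (i, j))| ≤ 6 * |V2|).image fun i => (i, j) := by
        rintro ⟨i, j⟩ hc
        rw [Finset.mem_filter] at hc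
        rw [Finset.mem_biUnion]
        exact ⟨j, Finset.mem_univ _, Finset.mem_image.2 ⟨i, Finset.mem_filter.2 ⟨Finset.mem_univ _, hc.2⟩, rfl⟩⟩
      refine le_trans (Finset.card_le_card hsub) (le_trans Finset.card_biUnion_le ?_)
      calc _ ≤ ∑ _j : Fin M, 13 := by
            apply Finset.sum_le_sum
            intro j _
            refine le_trans Finset.card_image_le ?_
            obtain ⟨a, b, hab, hj⟩ := exists_interval
              ((((j : ℕ) : ℤ) - (ic x).2) * V1 + (ic x).1 * V2) V2 hV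
            apply card_interval a b _ _ hab
            intro i hii
            apply hj
            have e : (((j : ℕ) : ℤ) - (ic x).2) * V1 + (ic x).1 * V2 - ((i : ℕ) : ℤ) * V2 =
                -idet (ic x) (ic y) (ic (i, j)) := by
              simp only [idet, ic, hV1, hV2]; ring
            rw [e, abs_neg]; exact hii
        _ = 13 * M := by simp [mul_comm]

/-! ### The points -/

/-- position of a grid point -/
noncomputable def pos {M : ℕ} (q : Grid M) : EuclideanSpace ℝ (Fin 2) :=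
  !₂[((q.1 : ℕ) : ℝ) / M - 1 / 2, ((q.2 : ℕ) : ℝ) / M - 1 / 2]

lemma norm_sq_eq (w : EuclideanSpace ℝ (Fin 2)) : ‖w‖ ^ 2 = w 0 ^ 2 + w 1 ^ 2 := by
  rw [EuclideanSpace.norm_sq_eq, Fin.sum_univ_two, Real.norm_eq_abs, Real.norm_eq_abs, sq_abs, sq_abs]

lemma abs_coord_le {M : ℕ} (i : Fin M) : |((i : ℕ) : ℝ) / M - 1 / 2| ≤ 1 / 2 := by
  have hM : 0 < M := by have := i.2; omega
  have hM' : (0 : ℝ) < M := by exact_mod_cast hM
  have h1 : ((i : ℕ) : ℝ) / M ≤ 1 := by
    rw [div_le_one hM']; exact_mod_cast i.2.le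
  have h0 : 0 ≤ ((i : ℕ) : ℝ) / M := by positivity
  rw [abs_le]; constructor <;> linarith

lemma pos_subset {M : ℕ} (hM : 4 ≤ M) (q : Grid M) :
    closedBall (pos q) (1 / (M : ℝ)) ⊆ closedBall 0 1 := by
  have hM' : (4 : ℝ) ≤ M := by exact_mod_cast hM
  have h1 : ‖pos q‖ ≤ 3 / 4 := by
    have h2 : ‖pos q‖ ^ 2 ≤ (3 / 4) ^ 2 := by
      rw [norm_sq_eq]
      have e0 : pos q 0 = ((q.1 : ℕ) : ℝ) / M - 1 / 2 := by simp [pos]
      have e1 : pos q 1 = ((q.2 : ℕ) : ℝ) / M - 1 / 2 := by simp [pos]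
      rw [e0, e1]
      have a1 := sq_le_sq' (abs_le.1 (abs_coord_le q.1)).1 (abs_le.1 (abs_coord_le q.1)).2
      have a2 := sq_le_sq' (abs_le.1 (abs_coord_le q.2)).1 (abs_le.1 (abs_coord_le q.2)).2
      linarith
    exact le_of_sq_le_sq h2 (by norm_num)
  have h3 : 1 / (M : ℝ) ≤ 1 / 4 := by gcongr
  intro z hz
  rw [mem_closedBall_zero_iff]
  rw [mem_closedBall, dist_eq_norm] at hz
  have := norm_add_le (z - pos q) (pos q)
  rw [sub_add_cancel] at this
  linarith

/-- the determinant of two plane vectors -/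
def dt (u v : EuclideanSpace ℝ (Fin 2)) : ℝ := u 0 * v 1 - u 1 * v 0

lemma abs_dt_le (u v : EuclideanSpace ℝ (Fin 2)) : |dt u v| ≤ ‖u‖ * ‖v‖ := by
  apply abs_le_of_sq_le_sq _ (by positivity)
  rw [mul_pow, norm_sq_eq, norm_sq_eq, dt]
  nlinarith [sq_nonneg (u 0 * v 0 + u 1 * v 1)]

lemma det_bound {r D : ℝ} {τ u v : EuclideanSpace ℝ (Fin 2)} (hτ : ‖τ‖ = 1)
    (hu : |dt τ u| ≤ 2 * r) (hv : |dt τ v| ≤ 2 * r) (huD : ‖u‖ ≤ D) (hvD : ‖v‖ ≤ D) :
    |dt u v| ≤ 4 * r * D := by
  have h1 : τ 0 ^ 2 + τ 1 ^ 2 = 1 := by rw [← norm_sq_eq, hτ]; norm_num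
  have e : dt u v = (τ 0 * u 0 + τ 1 * u 1) * dt τ v - dt τ u * (τ 0 * v 0 + τ 1 * v 1) := by
    simp only [dt]
    linear_combination (-(u 0 * v 1) + u 1 * v 0) * h1
  have inner : ∀ w : EuclideanSpace ℝ (Fin 2), |τ 0 * w 0 + τ 1 * w 1| ≤ ‖w‖ := by
    intro w
    apply abs_le_of_sq_le_sq _ (norm_nonneg _)
    rw [norm_sq_eq]
    nlinarith [sq_nonneg (τ 0 * w 1 - τ 1 * w 0)]
  have hr : 0 ≤ r := by have := abs_nonneg (dt τ u); linarith
  rw [e]
  calc |(τ 0 * u 0 + τ 1 * u 1) * dt τ v - dt τ u * (τ 0 * v 0 + τ 1 * v 1)|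
      ≤ |(τ 0 * u 0 + τ 1 * u 1) * dt τ v| + |dt τ u * (τ 0 * v 0 + τ 1 * v 1)| := abs_sub _ _
    _ = |τ 0 * u 0 + τ 1 * u 1| * |dt τ v| + |dt τ u| * |τ 0 * v 0 + τ 1 * v 1| := by
        rw [abs_mul, abs_mul]
    _ ≤ D * (2 * r) + (2 * r) * D := by
        apply add_le_add
        · exact mul_le_mul ((inner u).trans huD) hv (abs_nonneg _) (le_trans (norm_nonneg _) huD)
        · exact mul_le_mul hu ((inner v).trans hvD) (abs_nonneg _) (by linarith)
    _ = 4 * r * D := by ring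

lemma pos_sub {M : ℕ} (_hM : 0 < M) (x y : Grid M) :
    (pos y - pos x) 0 = (((ic y).1 - (ic x).1 : ℤ) : ℝ) / M ∧
    (pos y - pos x) 1 = (((ic y).2 - (ic x).2 : ℤ) : ℝ) / M := by
  constructor <;> simp [pos, ic] <;> ring

lemma pos_injective {M : ℕ} (hM : 0 < M) : Function.Injective (pos (M := M)) := by
  intro x y h
  have hM' : (M : ℝ) ≠ 0 := by positivity
  obtain ⟨h1, h2⟩ := pos_sub hM x y
  rw [h, sub_self] at h1 h2
  have e1 : (((ic y).1 - (ic x).1 : ℤ) : ℝ) = 0 := by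
    have : (0 : ℝ) = (((ic y).1 - (ic x).1 : ℤ) : ℝ) / M := by simpa using h1
    rcases div_eq_zero_iff.1 this.symm with h | h
    · exact h
    · exact absurd h hM'
  have e2 : (((ic y).2 - (ic x).2 : ℤ) : ℝ) = 0 := by
    have : (0 : ℝ) = (((ic y).2 - (ic x).2 : ℤ) : ℝ) / M := by simpa using h2
    rcases div_eq_zero_iff.1 this.symm with h | h
    · exact h
    · exact absurd h hM'
  have f1 : (ic y).1 - (ic x).1 = 0 := by exact_mod_cast e1
  have f2 : (ic y).2 - (ic x).2 = 0 := by exact_mod_cast e2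
  exact ic_inj (Prod.ext (by omega) (by omega))

/-- a line meeting the disks of all indices of `T` makes `T` bad -/
lemma isBad_of_line {N M : ℕ} (hM : 0 < M) (f : Fin N → Grid M) (T : Finset (Fin N))
    (hT : 2 ≤ T.card) (a v : EuclideanSpace ℝ (Fin 2)) (hv : v ≠ 0)
    (h : ∀ i ∈ T, ∃ t : ℝ, a + t • v ∈ closedBall (pos (f i)) (1 / (M : ℝ))) :
    Pool.Agent.R151.Deletion.IsBad (strip (M := M)) f T := by
  classical
  have hM' : (0 : ℝ) < M := by exact_mod_cast hM
  have hTne : (T ×ˢ T).Nonempty := by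
    have : T.Nonempty := Finset.card_pos.1 (by omega)
    exact this.product this
  obtain ⟨⟨x, y⟩, hxy, hmax⟩ := Finset.exists_max_image (T ×ˢ T)
    (fun ab => dist (pos (f ab.1)) (pos (f ab.2))) hTne
  rw [Finset.mem_product] at hxy
  simp only at hxy hmax
  by_cases hzero : pos (f x) = pos (f y)
  · -- all the points coincide
    have hall : ∀ c ∈ T, f c = f x := by
      intro c hc
      have h1 := hmax (c, x) (Finset.mem_product.2 ⟨hc, hxy.1⟩)
      simp only at h1
      rw [hzero, dist_self] at h1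
      have h2 := dist_le_zero.1 h1
      exact pos_injective hM (h2.trans hzero.symm)
    obtain ⟨a', ha', b', hb', hab'⟩ := Finset.one_lt_card.1 (by omega : 1 < T.card)
    refine ⟨a', ha', b', hb', hab', fun c hc _ _ => ?_⟩
    have e : f a' = f b' := by rw [hall a' ha', hall b' hb']
    rw [strip, if_pos e, Finset.mem_singleton, hall c hc, hall a' ha']
  · have hfne : f x ≠ f y := fun hh => hzero (by rw [hh])
    have hxyne : x ≠ y := fun hh => hfne (by rw [hh])
    refine ⟨x, hxy.1, y, hxy.2, hxyne, fun c hc _ _ => ?_⟩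
    rw [strip, if_neg hfne, Finset.mem_filter]
    refine ⟨Finset.mem_univ _, ?_⟩
    set D := dist (pos (f x)) (pos (f y)) with hD
    have hvn : 0 < ‖v‖ := norm_pos_iff.2 hv
    set τ : EuclideanSpace ℝ (Fin 2) := (‖v‖⁻¹) • v with hτ
    have hτ1 : ‖τ‖ = 1 := by
      rw [hτ, norm_smul, norm_inv, norm_norm, inv_mul_cancel₀ hvn.ne']
    -- differences are nearly parallel to τ
    have hdiff : ∀ i ∈ T, ∀ j ∈ T, |dt τ (pos (f i) - pos (f j))| ≤ 2 * (1 / (M : ℝ)) := by
      intro i hi j hj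
      obtain ⟨t1, ht1⟩ := h i hi
      obtain ⟨t2, ht2⟩ := h j hj
      rw [mem_closedBall, dist_eq_norm] at ht1 ht2
      have e : dt τ (pos (f i) - pos (f j)) =
          dt τ ((a + t2 • v - pos (f j)) - (a + t1 • v - pos (f i))) := by
        simp only [dt, hτ, PiLp.sub_apply, PiLp.add_apply, PiLp.smul_apply, smul_eq_mul]
        ring
      rw [e]
      calc |dt τ ((a + t2 • v - pos (f j)) - (a + t1 • v - pos (f i)))|
          ≤ ‖τ‖ * ‖(a + t2 • v - pos (f j)) - (a + t1 • v - pos (f i))‖ := abs_dt_le _ _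
        _ ≤ 1 * (1 / (M : ℝ) + 1 / (M : ℝ)) := by
            rw [hτ1]
            gcongr
            exact le_trans (norm_sub_le _ _) (add_le_add ht2 ht1)
        _ = 2 * (1 / (M : ℝ)) := by ring
    have hcx : ‖pos (f c) - pos (f x)‖ ≤ D := by
      rw [← dist_eq_norm]; exact hmax (c, x) (Finset.mem_product.2 ⟨hc, hxy.1⟩)
    have hyx : ‖pos (f y) - pos (f x)‖ ≤ D := by
      rw [← dist_eq_norm, dist_comm]
    have hdet := det_bound hτ1 (hdiff c hc x hxy.1) (hdiff y hxy.2 x hxy.1) hcx hyx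
    obtain ⟨c0, c1⟩ := pos_sub hM (f x) (f c)
    obtain ⟨y0, y1⟩ := pos_sub hM (f x) (f y)
    set V1 := (ic (f y)).1 - (ic (f x)).1 with hV1
    set V2 := (ic (f y)).2 - (ic (f x)).2 with hV2
    have e1 : dt (pos (f c) - pos (f x)) (pos (f y) - pos (f x)) =
        ((idet (ic (f x)) (ic (f y)) (ic (f c)) : ℤ) : ℝ) / M ^ 2 := by
      rw [dt, c0, c1, y0, y1, idet, ← hV1, ← hV2]
      push_cast
      field_simp
    -- D in terms of V
    set m := max |V1| |V2| with hm
    have hDm : D ≤ 3 / 2 * (m : ℝ) / M := by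
      have h1 : D ^ 2 = ((V1 : ℝ) ^ 2 + (V2 : ℝ) ^ 2) / M ^ 2 := by
        rw [hD, dist_comm, dist_eq_norm, norm_sq_eq, y0, y1]
        field_simp
      apply le_of_sq_le_sq _ (by positivity)
      rw [h1]
      have a1 : (V1 : ℝ) ^ 2 ≤ (m : ℝ) ^ 2 := by
        rw [← sq_abs (V1 : ℝ)]
        have : |(V1 : ℝ)| ≤ m := by exact_mod_cast le_max_left |V1| |V2|
        gcongr
      have a2 : (V2 : ℝ) ^ 2 ≤ (m : ℝ) ^ 2 := by
        rw [← sq_abs (V2 : ℝ)]
        have : |(V2 : ℝ)| ≤ m := by exact_mod_cast le_max_right |V1| |V2|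
        gcongr
      rw [div_pow]
      gcongr
      nlinarith [sq_nonneg (m : ℝ)]
    rw [e1, abs_div, abs_of_pos (by positivity : (0 : ℝ) < (M : ℝ) ^ 2), div_le_iff₀ (by positivity)]
      at hdet
    have h5 : |((idet (ic (f x)) (ic (f y)) (ic (f c)) : ℤ) : ℝ)| ≤ 6 * (m : ℝ) := by
      refine hdet.trans ?_
      calc 4 * (1 / (M : ℝ)) * D * (M : ℝ) ^ 2 ≤ 4 * (1 / (M : ℝ)) * (3 / 2 * (m : ℝ) / M) * (M : ℝ) ^ 2 := by
            gcongr
        _ = 6 * (m : ℝ) := by field_simp; ring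
    exact_mod_cast h5

/-- The construction: `n` disks of radius `1/M`. -/
lemma exists_admissible {k n M : ℕ} (hk : 1 ≤ k) (hM : 4 ≤ M)
    (hsmall : 2 * (k + 1) ^ 2 * (2 * n) ^ k * 13 ^ (k - 1) ≤ M ^ (k - 1)) :
    ∃ p, Admissible k n (1 / (M : ℝ)) p := by
  classical
  have hM0 : 0 < M := by omega
  have : NeZero M := ⟨by omega⟩
  obtain ⟨f, G, hG, hbad⟩ := Pool.Agent.R151.Deletion.exists_good (N := 2 * n) (Q := Grid M) hk
    (strip (M := M)) (13 * M) (fun x y => card_strip x y) (by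
      have e1 : Fintype.card (Grid M) ^ (k - 1) = M ^ (k - 1) * M ^ (k - 1) := by
        rw [Fintype.card_prod, Fintype.card_fin, mul_pow]
      have e2 : 2 * (k + 1) ^ 2 * (2 * n) ^ k * (13 * M) ^ (k - 1) =
          2 * (k + 1) ^ 2 * (2 * n) ^ k * 13 ^ (k - 1) * M ^ (k - 1) := by
        rw [mul_pow 13 M]; ring
      rw [e1, e2]
      exact Nat.mul_le_mul_right _ hsmall)
  obtain ⟨G', hG'G, hG'card⟩ := Finset.exists_subset_card_eq (show n ≤ G.card by omega)
  set e := (Finset.equivFinOfCardEq hG'card).symm with he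
  refine ⟨fun i => pos (f (e i).1), fun i => pos_subset hM _, ?_⟩
  intro a v hv
  by_contra hcon
  push Not at hcon
  set X : Set (Fin n) := {i : Fin n | ∃ t : ℝ, a + t • v ∈ closedBall (pos (f (e i).1)) (1 / (M : ℝ))}
    with hX
  have hXfin : X.Finite := Set.toFinite X
  rw [Set.ncard_eq_toFinset_card X hXfin] at hcon
  obtain ⟨T', hT'X, hT'card⟩ := Finset.exists_subset_card_eq (show k + 1 ≤ hXfin.toFinset.card by omega)
  have hinj : Function.Injective (fun i : Fin n => (e i).1) :=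
    fun i j hij => e.injective (Subtype.ext hij)
  apply hbad (T'.image fun i => (e i).1)
  · rw [Finset.card_image_of_injective _ hinj, hT'card]
  · intro z hz
    obtain ⟨i, _, rfl⟩ := Finset.mem_image.1 hz
    exact hG'G (e i).2
  · apply isBad_of_line hM0 f _ _ a v hv
    · intro z hz
      obtain ⟨i, hi, rfl⟩ := Finset.mem_image.1 hz
      have := hT'X hi
      rw [Set.Finite.mem_toFinset] at this
      exact this
    · rw [Finset.card_image_of_injective _ hinj, hT'card]; omega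

/-- **Lower bound**: for every `k ≥ 3` there is `c > 0` with `r_k(n) ≥ c n^{-k/(k-1)}` for all
`n ≥ 1`. -/
theorem result (k : ℕ) (hk : 3 ≤ k) :
    ∃ c : ℝ, 0 < c ∧ ∀ n : ℕ, 1 ≤ n → c * (n : ℝ) ^ (-((k : ℝ) / ((k : ℝ) - 1))) ≤ rk k n := by
  have hk' : (3 : ℝ) ≤ k := by exact_mod_cast hk
  set C0 : ℝ := 2 * ((k : ℝ) + 1) ^ 2 * 2 ^ k * 13 ^ (k - 1) with hC0
  have hC0pos : 0 < C0 := by positivity
  set C1 : ℝ := C0 ^ (1 / ((k : ℝ) - 1)) with hC1
  have hC1pos : 0 < C1 := Real.rpow_pos_of_pos hC0pos _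
  refine ⟨1 / (C1 + 5), by positivity, ?_⟩
  intro n hn
  have hn' : (1 : ℝ) ≤ n := by exact_mod_cast hn
  have hn0 : (0 : ℝ) < n := by linarith
  have hkm : (0 : ℝ) < (k : ℝ) - 1 := by linarith
  set E : ℝ := (n : ℝ) ^ ((k : ℝ) / ((k : ℝ) - 1)) with hE
  have hE1 : 1 ≤ E := Real.one_le_rpow hn' (by positivity)
  set x : ℝ := C1 * E with hx
  have hx0 : 0 ≤ x := by positivity
  set M : ℕ := ⌈x⌉₊ + 4 with hM
  have hxM : x ≤ M := by
    have := Nat.le_ceil x
    rw [hM]; push_cast; linarith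
  have hMx : (M : ℝ) ≤ (C1 + 5) * E := by
    have := Nat.ceil_lt_add_one hx0
    rw [hM]; push_cast
    have h5 : x + 5 ≤ (C1 + 5) * E := by rw [hx]; nlinarith
    linarith
  have hMpos : (0 : ℝ) < M := by rw [hM]; positivity
  -- x ^ (k - 1)
  have hcast : ((k - 1 : ℕ) : ℝ) = (k : ℝ) - 1 := by
    rw [Nat.cast_sub (by omega)]; simp
  have hxpow : x ^ (k - 1) = C0 * (n : ℝ) ^ k := by
    rw [hx, mul_pow]
    congr 1
    · rw [hC1, ← Real.rpow_natCast, ← Real.rpow_mul hC0pos.le, hcast]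
      rw [one_div, inv_mul_cancel₀ hkm.ne', Real.rpow_one]
    · rw [hE, ← Real.rpow_natCast, ← Real.rpow_mul hn0.le, hcast, div_mul_cancel₀ _ hkm.ne',
        Real.rpow_natCast]
  have hsmall : 2 * (k + 1) ^ 2 * (2 * n) ^ k * 13 ^ (k - 1) ≤ M ^ (k - 1) := by
    have h1 : x ^ (k - 1) ≤ (M : ℝ) ^ (k - 1) := by gcongr
    rw [hxpow] at h1
    have h2 : C0 * (n : ℝ) ^ k = ((2 * (k + 1) ^ 2 * (2 * n) ^ k * 13 ^ (k - 1) : ℕ) : ℝ) := by
      rw [hC0]; push_cast; rw [mul_pow]; ring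
    rw [h2] at h1
    exact_mod_cast h1
  obtain ⟨p, hp⟩ := exists_admissible (k := k) (n := n) (M := M) (by omega) (by omega) hsmall
  have hle : 1 / (M : ℝ) ≤ rk k n := le_csSup (bddAbove hn) ⟨by positivity, p, hp⟩
  refine le_trans ?_ hle
  rw [Real.rpow_neg hn0.le, ← hE]
  rw [div_mul_eq_mul_div, one_mul, ← one_div, div_div]
  apply one_div_le_one_div_of_le hMpos
  linarith

end Pool.Agent.Results.MP_1780a9_co.LowerBound
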